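import Pool.Agent.T2H80.UP.UP
import Pool.Agent.T2H80.UP.FI
import Pool.Agent.T2H80.UP.COV
import Pool.Agent.T2H80.UP.MON
import Pool.Agent.T2H80.UP.LW
import Pool.Agent.T2H80.UP.LS
import Pool.Agent.T2H80.UP.LB
import Pool.Agent.T2H80.UP.DZ
import Pool.Agent.T2H80.UP.HX
import Pool.Agent.T2H80.UP.CN
import Pool.Agent.T2H80.UP.NB
import Pool.Agent.T2H80.UP.GR
import Pool.Agent.T2H80.UP.LO

/-!
# The union page number of the complete graph is asymptotically `n / 3`

Upper bound: an explicit difference family of triangulated hexagons in the cyclic group of order `18 K + 7`
(nine edges for six vertices, every nonzero difference except three is used once) is blown up, every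
point becomes a block of `m` consecutive vertices; the weighted nibble theorem for the hypergraph with the
vertices (vertex, colour) and (edge) gives a packing of almost all edges by hexagons with `6 K m` colours such that
hexagons of one colour are vertex-disjoint; the remaining edges need few stars and matchings.
Lower bound: the weights `min n (3 length)`.
-/

set_option autoImplicit false

open Filter

namespace Pool.Agent.Results.MP_556f19_co.LimitOneThird

open Pool.Agent.T2H80.UP

/-- **The union page number of `K_n` divided by `n` tends to `1/3`.** -/
theorem result : Tendsto (fun n : ℕ => (pnu (⊤ : SimpleGraph (Fin n)) : ℝ) / n) atTop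
    (nhds (1 / 3)) :=
  pFI (pLB pLW pLS) (pUP pCOV pMON pHX (pNB pDZ pHX pCN) (pLO pGR))

end Pool.Agent.Results.MP_556f19_co.LimitOneThird
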